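import Mathlib

/-!
# The counting lemma of Katz and Tao for chains
-/

namespace Pool.Agent.Lib.H38K

open Finset

/-- The number of elements of `V` with the same value of `f` as `v`. -/
def cnt {α β : Type*} [DecidableEq β] (V : Finset α) (f : α → β) (v : α) : ℕ :=
  (V.filter fun u => f u = f v).card

theorem cnt_pos {α β : Type*} [DecidableEq β] {V : Finset α} {f : α → β} {v : α} (hv : v ∈ V) :
    0 < cnt V f v :=
  card_pos.2 ⟨v, mem_filter.2 ⟨hv, rfl⟩⟩

theorem sum_inv_cnt {α β : Type*} [DecidableEq β] (V : Finset α) (f : α → β) :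
    ∑ v ∈ V, (1 : ℝ) / cnt V f v = (V.image f).card := by
  rw [← sum_fiberwise_of_maps_to (g := f) (t := V.image f) (fun v hv => mem_image_of_mem f hv)]
  rw [card_eq_sum_ones, Nat.cast_sum]
  apply sum_congr rfl
  intro y hy
  obtain ⟨v, hv, rfl⟩ := mem_image.1 hy
  have h : ∀ u ∈ V.filter fun u => f u = f v, (1 : ℝ) / cnt V f u = 1 / cnt V f v := by
    intro u hu
    rw [mem_filter] at hu
    rw [cnt, hu.2, ← cnt]
  rw [sum_congr rfl h, sum_const, nsmul_eq_mul]
  have h2 : (((V.filter fun u => f u = f v).card : ℕ) : ℝ) = cnt V f v := rfl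
  rw [h2]
  have h3 : (0 : ℝ) < cnt V f v := by exact_mod_cast cnt_pos hv
  push_cast
  field_simp

theorem amgm3 {x y z : ℝ} (hx : 0 < x) (hy : 0 < y) (hz : 0 < z) (h : x * y * z = 1) :
    3 ≤ x + y + z := by
  by_contra hlt
  push Not at hlt
  have h1 : 27 * (x * y * z) ≤ (x + y + z) ^ 3 := by
    nlinarith [mul_nonneg hx.le (sq_nonneg (y - z)), mul_nonneg hy.le (sq_nonneg (x - z)),
      mul_nonneg hz.le (sq_nonneg (x - y)), mul_nonneg hx.le (sq_nonneg (x - z)),
      mul_nonneg hx.le (sq_nonneg (x - y)), mul_nonneg hy.le (sq_nonneg (x - y)),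
      mul_nonneg hy.le (sq_nonneg (y - z)), mul_nonneg hz.le (sq_nonneg (y - z)),
      mul_nonneg hz.le (sq_nonneg (x - z))]
  have h2 : (x + y + z) ^ 3 < 3 ^ 3 := pow_lt_pow_left₀ hlt (by positivity) (by norm_num)
  rw [h] at h1
  linarith

theorem amgm4 {w x y z : ℝ} (hw : 0 < w) (hx : 0 < x) (hy : 0 < y) (hz : 0 < z)
    (h : w * x * y * z = 1) : 4 ≤ w + x + y + z := by
  by_contra hlt
  push Not at hlt
  have h1 : 4 * (w * x) ≤ (w + x) ^ 2 := by nlinarith [sq_nonneg (w - x)]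
  have h2 : 4 * (y * z) ≤ (y + z) ^ 2 := by nlinarith [sq_nonneg (y - z)]
  have h3 : 4 * ((w + x) * (y + z)) ≤ (w + x + y + z) ^ 2 := by
    nlinarith [sq_nonneg (w + x - y - z)]
  have h4 : (w + x + y + z) ^ 2 < 4 ^ 2 := pow_lt_pow_left₀ hlt (by positivity) (by norm_num)
  have h5 : (w + x) * (y + z) < 4 := by linarith
  have h6 : ((w + x) * (y + z)) ^ 2 < 4 ^ 2 := pow_lt_pow_left₀ h5 (by positivity) (by norm_num)
  have h7 : (4 * (w * x)) * (4 * (y * z)) ≤ (w + x) ^ 2 * (y + z) ^ 2 :=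
    mul_le_mul h1 h2 (by positivity) (by positivity)
  have h8 : (4 * (w * x)) * (4 * (y * z)) = 16 * (w * x * y * z) := by ring
  rw [h8, h] at h7
  nlinarith

/-- The chains of length two. -/
theorem chain_two {α β γ : Type*} [DecidableEq β] [DecidableEq γ] (V : Finset α) (f : α → β)
    (g : α → γ) {M₁ M₂ T : ℝ} (h₁ : ((V.image f).card : ℝ) ≤ M₁) (h₂ : ((V.image g).card : ℝ) ≤ M₂)
    (hT : T = ∑ v ∈ V, (cnt V f v : ℝ) * cnt V g v) : (V.card : ℝ) ^ 3 ≤ T * M₁ * M₂ := by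
  rcases V.eq_empty_or_nonempty with h0 | ⟨v₀, hv₀⟩
  · subst h0
    simp [hT]
  have hM₁ : 0 < M₁ := by
    have h : (0 : ℝ) < (V.image f).card := by exact_mod_cast card_pos.2 ⟨_, mem_image_of_mem f hv₀⟩
    linarith
  have hM₂ : 0 < M₂ := by
    have h : (0 : ℝ) < (V.image g).card := by exact_mod_cast card_pos.2 ⟨_, mem_image_of_mem g hv₀⟩
    linarith
  have hcf : ∀ v ∈ V, (0 : ℝ) < cnt V f v := fun v hv => by exact_mod_cast cnt_pos hv
  have hcg : ∀ v ∈ V, (0 : ℝ) < cnt V g v := fun v hv => by exact_mod_cast cnt_pos hv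
  have hTpos : 0 < T := by
    rw [hT]
    exact sum_pos (fun v hv => mul_pos (hcf v hv) (hcg v hv)) ⟨v₀, hv₀⟩
  obtain ⟨P, hP, hP3⟩ : ∃ P : ℝ, 0 < P ∧ P ^ 3 = T * M₁ * M₂ := by
    refine ⟨(T * M₁ * M₂) ^ ((1 : ℝ) / 3), by positivity, ?_⟩
    rw [← Real.rpow_natCast, ← Real.rpow_mul (by positivity)]
    norm_num
  have hkey : ∀ v ∈ V, (3 : ℝ) ≤ P * ((cnt V f v : ℝ) * cnt V g v) / T +
      P / M₁ * (1 / cnt V f v) + P / M₂ * (1 / cnt V g v) := by
    intro v hv
    have h1 := hcf v hv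
    have h2 := hcg v hv
    apply amgm3 (by positivity) (by positivity) (by positivity)
    have h3 : P * ((cnt V f v : ℝ) * cnt V g v) / T * (P / M₁ * (1 / cnt V f v)) *
        (P / M₂ * (1 / cnt V g v)) = P ^ 3 / (T * M₁ * M₂) := by
      field_simp
    rw [h3, hP3]
    field_simp
  have hsum := sum_le_sum hkey
  rw [sum_const, nsmul_eq_mul, sum_add_distrib, sum_add_distrib, ← mul_sum, ← mul_sum,
    sum_inv_cnt, sum_inv_cnt, ← sum_div, ← mul_sum, ← hT] at hsum
  have h4 : P * T / T = P := by field_simp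
  have h5 : P / M₁ * ((V.image f).card : ℝ) ≤ P := by
    rw [div_mul_eq_mul_div, div_le_iff₀ hM₁]
    exact mul_le_mul_of_nonneg_left h₁ hP.le
  have h6 : P / M₂ * ((V.image g).card : ℝ) ≤ P := by
    rw [div_mul_eq_mul_div, div_le_iff₀ hM₂]
    exact mul_le_mul_of_nonneg_left h₂ hP.le
  have h7 : (V.card : ℝ) ≤ P := by linarith
  rw [← hP3]
  exact pow_le_pow_left₀ (Nat.cast_nonneg _) h7 3

/-- The chains of length three. -/
theorem chain_three {α β γ δ : Type*} [DecidableEq β] [DecidableEq γ] [DecidableEq δ]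
    (V : Finset α) (f : α → β) (g : α → γ) (h : α → δ) {M₁ M₂ M₃ T : ℝ}
    (h₁ : ((V.image f).card : ℝ) ≤ M₁) (h₂ : ((V.image g).card : ℝ) ≤ M₂)
    (h₃ : ((V.image h).card : ℝ) ≤ M₃)
    (hT : T = ∑ v ∈ V, ∑ w ∈ V.filter (fun w => g w = g v), (cnt V f v : ℝ) * cnt V h w) :
    (V.card : ℝ) ^ 4 ≤ T * M₁ * M₂ * M₃ := by
  rcases V.eq_empty_or_nonempty with h0 | ⟨v₀, hv₀⟩
  · subst h0
    simp [hT]
  have hM₁ : 0 < M₁ := by
    have h : (0 : ℝ) < (V.image f).card := by exact_mod_cast card_pos.2 ⟨_, mem_image_of_mem f hv₀⟩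
    linarith
  have hM₂ : 0 < M₂ := by
    have h : (0 : ℝ) < (V.image g).card := by exact_mod_cast card_pos.2 ⟨_, mem_image_of_mem g hv₀⟩
    linarith
  have hM₃ : 0 < M₃ := by
    have h : (0 : ℝ) < (V.image h).card := by exact_mod_cast card_pos.2 ⟨_, mem_image_of_mem h hv₀⟩
    linarith
  have hcf : ∀ v ∈ V, (0 : ℝ) < cnt V f v := fun v hv => by exact_mod_cast cnt_pos hv
  have hcg : ∀ v ∈ V, (0 : ℝ) < cnt V g v := fun v hv => by exact_mod_cast cnt_pos hv
  have hch : ∀ v ∈ V, (0 : ℝ) < cnt V h v := fun v hv => by exact_mod_cast cnt_pos hv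
  have hTpos : 0 < T := by
    rw [hT]
    refine sum_pos (fun v hv => sum_pos (fun w hw => mul_pos (hcf v hv) (hch w ?_)) ?_) ⟨v₀, hv₀⟩
    · exact (mem_filter.1 hw).1
    · exact ⟨v, mem_filter.2 ⟨hv, rfl⟩⟩
  obtain ⟨P, hP, hP4⟩ : ∃ P : ℝ, 0 < P ∧ P ^ 4 = T * M₁ * M₂ * M₃ := by
    refine ⟨(T * M₁ * M₂ * M₃) ^ ((1 : ℝ) / 4), by positivity, ?_⟩
    rw [← Real.rpow_natCast, ← Real.rpow_mul (by positivity)]
    norm_num
  -- the four terms
  have hkey : ∀ v ∈ V, ∀ w ∈ V.filter (fun w => g w = g v), 4 * (1 / (cnt V g v : ℝ)) ≤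
      P / T * ((cnt V f v : ℝ) * cnt V h w) + P / M₁ * (1 / cnt V f v) * (1 / cnt V g v) +
      P / M₃ * (1 / cnt V h w) * (1 / cnt V g v) +
      P / M₂ * ((1 / cnt V g v) * (1 / cnt V g v)) := by
    intro v hv w hw
    have h1 := hcf v hv
    have h2 := hcg v hv
    have h3 := hch w (mem_filter.1 hw).1
    obtain ⟨c, hc⟩ : ∃ c : ℝ, c = cnt V g v := ⟨_, rfl⟩
    obtain ⟨a, ha⟩ : ∃ a : ℝ, a = cnt V f v := ⟨_, rfl⟩
    obtain ⟨b, hb⟩ : ∃ b : ℝ, b = cnt V h w := ⟨_, rfl⟩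
    rw [← hc, ← ha, ← hb]
    rw [← hc] at h2
    rw [← ha] at h1
    rw [← hb] at h3
    have h4 : 4 ≤ P / T * (a * b) * c + P / M₁ * (1 / a) + P / M₃ * (1 / b) + P / M₂ * (1 / c) := by
      apply amgm4 (by positivity) (by positivity) (by positivity) (by positivity)
      have h5 : P / T * (a * b) * c * (P / M₁ * (1 / a)) * (P / M₃ * (1 / b)) *
          (P / M₂ * (1 / c)) = P ^ 4 / (T * M₁ * M₂ * M₃) := by
        field_simp
      rw [h5, hP4]
      field_simp
    have h6 := mul_le_mul_of_nonneg_right h4 (by positivity : (0 : ℝ) ≤ 1 / c)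
    have h7 : (P / T * (a * b) * c + P / M₁ * (1 / a) + P / M₃ * (1 / b) + P / M₂ * (1 / c)) *
        (1 / c) = P / T * (a * b) + P / M₁ * (1 / a) * (1 / c) +
        P / M₃ * (1 / b) * (1 / c) + P / M₂ * ((1 / c) * (1 / c)) := by
      field_simp
    rw [h7] at h6
    exact h6
  have hconst : ∀ v ∈ V, ∑ w ∈ V.filter (fun w => g w = g v), (1 / (cnt V g v : ℝ)) = 1 := by
    intro v hv
    rw [sum_const, nsmul_eq_mul]
    have h2 : (((V.filter fun u => g u = g v).card : ℕ) : ℝ) = cnt V g v := rfl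
    rw [h2]
    have := hcg v hv
    field_simp
  have hswap : ∑ v ∈ V, ∑ w ∈ V.filter (fun w => g w = g v),
      (1 / (cnt V h w : ℝ)) * (1 / cnt V g v) = (V.image h).card := by
    have e1 : ∑ v ∈ V, ∑ w ∈ V.filter (fun w => g w = g v),
        (1 / (cnt V h w : ℝ)) * (1 / cnt V g v) = ∑ w ∈ V, ∑ v ∈ V.filter (fun v => g v = g w),
        (1 / (cnt V h w : ℝ)) * (1 / cnt V g w) := by
      rw [sum_comm' (t' := V) (s' := fun w => V.filter (fun v => g v = g w))]
      · apply sum_congr rfl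
        intro w _
        apply sum_congr rfl
        intro v hv
        rw [mem_filter] at hv
        rw [cnt, cnt, cnt, hv.2]
      · intro v w
        simp only [mem_filter]
        constructor
        · rintro ⟨a1, a2, a3⟩
          exact ⟨⟨a1, a3.symm⟩, a2⟩
        · rintro ⟨⟨a1, a3⟩, a2⟩
          exact ⟨a1, a2, a3.symm⟩
    rw [e1, ← sum_inv_cnt]
    apply sum_congr rfl
    intro w hw
    rw [← mul_sum, hconst w hw, mul_one]
  have hsum : ∑ v ∈ V, ∑ w ∈ V.filter (fun w => g w = g v), 4 * (1 / (cnt V g v : ℝ)) ≤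
      ∑ v ∈ V, ∑ w ∈ V.filter (fun w => g w = g v),
      (P / T * ((cnt V f v : ℝ) * cnt V h w) + P / M₁ * (1 / cnt V f v) * (1 / cnt V g v) +
      P / M₃ * (1 / cnt V h w) * (1 / cnt V g v) +
      P / M₂ * ((1 / cnt V g v) * (1 / cnt V g v))) :=
    sum_le_sum fun v hv => sum_le_sum fun w hw => hkey v hv w hw
  have hL : ∑ v ∈ V, ∑ w ∈ V.filter (fun w => g w = g v), 4 * (1 / (cnt V g v : ℝ)) =
      4 * V.card := by
    have e1 : ∀ v ∈ V, ∑ w ∈ V.filter (fun w => g w = g v), 4 * (1 / (cnt V g v : ℝ)) = 4 := by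
      intro v hv
      rw [← mul_sum, hconst v hv, mul_one]
    rw [sum_congr rfl e1, sum_const, nsmul_eq_mul, mul_comm]
  have hR : ∑ v ∈ V, ∑ w ∈ V.filter (fun w => g w = g v),
      (P / T * ((cnt V f v : ℝ) * cnt V h w) + P / M₁ * (1 / cnt V f v) * (1 / cnt V g v) +
      P / M₃ * (1 / cnt V h w) * (1 / cnt V g v) +
      P / M₂ * ((1 / cnt V g v) * (1 / cnt V g v))) =
      P / T * T + P / M₁ * (V.image f).card + P / M₃ * (V.image h).card +
      P / M₂ * (V.image g).card := by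
    have e1 : ∑ v ∈ V, ∑ w ∈ V.filter (fun w => g w = g v),
        P / T * ((cnt V f v : ℝ) * cnt V h w) = P / T * T := by
      rw [hT, mul_sum]
      apply sum_congr rfl
      intro v _
      rw [mul_sum]
    have e2 : ∑ v ∈ V, ∑ w ∈ V.filter (fun w => g w = g v),
        P / M₁ * (1 / (cnt V f v : ℝ)) * (1 / cnt V g v) = P / M₁ * (V.image f).card := by
      rw [← sum_inv_cnt, mul_sum]
      apply sum_congr rfl
      intro v hv
      rw [← mul_sum, hconst v hv, mul_one]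
    have e3 : ∑ v ∈ V, ∑ w ∈ V.filter (fun w => g w = g v),
        P / M₃ * (1 / (cnt V h w : ℝ)) * (1 / cnt V g v) = P / M₃ * (V.image h).card := by
      rw [← hswap, mul_sum]
      apply sum_congr rfl
      intro v _
      rw [mul_sum]
      apply sum_congr rfl
      intro w _
      ring
    have e4 : ∑ v ∈ V, ∑ w ∈ V.filter (fun w => g w = g v),
        P / M₂ * ((1 / (cnt V g v : ℝ)) * (1 / cnt V g v)) = P / M₂ * (V.image g).card := by
      rw [← sum_inv_cnt, mul_sum]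
      apply sum_congr rfl
      intro v hv
      have : ∑ w ∈ V.filter (fun w => g w = g v),
          P / M₂ * ((1 / (cnt V g v : ℝ)) * (1 / cnt V g v)) =
          P / M₂ * (1 / (cnt V g v : ℝ)) *
            ∑ w ∈ V.filter (fun w => g w = g v), (1 / (cnt V g v : ℝ)) := by
        rw [mul_sum]
        apply sum_congr rfl
        intro w _
        ring
      rw [this, hconst v hv, mul_one]
    rw [← e1, ← e2, ← e3, ← e4, ← sum_add_distrib, ← sum_add_distrib, ← sum_add_distrib]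
    apply sum_congr rfl
    intro v _
    rw [← sum_add_distrib, ← sum_add_distrib, ← sum_add_distrib]
  rw [hL, hR] at hsum
  have h4 : P / T * T = P := by field_simp
  have h5 : P / M₁ * ((V.image f).card : ℝ) ≤ P := by
    rw [div_mul_eq_mul_div, div_le_iff₀ hM₁]
    exact mul_le_mul_of_nonneg_left h₁ hP.le
  have h6 : P / M₂ * ((V.image g).card : ℝ) ≤ P := by
    rw [div_mul_eq_mul_div, div_le_iff₀ hM₂]
    exact mul_le_mul_of_nonneg_left h₂ hP.le
  have h6' : P / M₃ * ((V.image h).card : ℝ) ≤ P := by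
    rw [div_mul_eq_mul_div, div_le_iff₀ hM₃]
    exact mul_le_mul_of_nonneg_left h₃ hP.le
  have h7 : (V.card : ℝ) ≤ P := by linarith
  rw [← hP4]
  exact pow_le_pow_left₀ (Nat.cast_nonneg _) h7 4

end Pool.Agent.Lib.H38K
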