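import Pool.Agent.Lib.H38K.Split

/-!
# The growth exponent of `m(N, k)` in `N`
-/

namespace Pool.Agent.Lib.H38K

open Finset Pool.Agent.Lib.H21AP Filter Topology

/-- The growth exponent `θ_k`: the infimum of `log m(N, k) / log (N + 1)` over `N ≥ 1`. -/
noncomputable def growthExp (k : ℕ) : ℝ :=
  sInf {x | ∃ N : ℕ, 1 ≤ N ∧ x = Real.log (minCard N k) / Real.log (N + 1)}

theorem log_succ_pos {N : ℕ} (hN : 1 ≤ N) : 0 < Real.log ((N : ℝ) + 1) := by
  apply Real.log_pos
  have : (1 : ℝ) ≤ N := by exact_mod_cast hN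
  linarith

theorem log_minCard_nonneg (N k : ℕ) : 0 ≤ Real.log (minCard N k) := Real.log_natCast_nonneg _

theorem bddBelow (k : ℕ) :
    BddBelow {x | ∃ N : ℕ, 1 ≤ N ∧ x = Real.log (minCard N k) / Real.log ((N : ℝ) + 1)} := by
  refine ⟨0, ?_⟩
  rintro x ⟨N, hN, rfl⟩
  exact div_nonneg (log_minCard_nonneg N k) (log_succ_pos hN).le

theorem growthExp_nonneg (k : ℕ) : 0 ≤ growthExp k := by
  apply Real.sInf_nonneg
  rintro x ⟨N, hN, rfl⟩
  exact div_nonneg (log_minCard_nonneg N k) (log_succ_pos hN).le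

theorem growthExp_le (k : ℕ) {N : ℕ} (hN : 1 ≤ N) :
    growthExp k ≤ Real.log (minCard N k) / Real.log ((N : ℝ) + 1) :=
  csInf_le (bddBelow k) ⟨N, hN, rfl⟩

theorem le_growthExp {k : ℕ} {x : ℝ}
    (h : ∀ N : ℕ, 1 ≤ N → x ≤ Real.log (minCard N k) / Real.log ((N : ℝ) + 1)) :
    x ≤ growthExp k := by
  have hne : {x | ∃ N : ℕ, 1 ≤ N ∧
      x = Real.log (minCard N k) / Real.log ((N : ℝ) + 1)}.Nonempty := ⟨_, 1, le_rfl, rfl⟩
  apply le_csInf hne
  rintro y ⟨N, hN, rfl⟩
  exact h N hN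

theorem le_minCard {N k : ℕ} (hN : 1 ≤ N) : k ≤ minCard N k := by
  obtain ⟨A, hA, hAc⟩ := exists_minCard N k
  obtain ⟨a, ha⟩ := hA 1 le_rfl hN
  rw [← hAc]
  have h1 : (range k).image (fun j => a + j * 1) ⊆ A := by
    intro x hx
    obtain ⟨j, hj, rfl⟩ := mem_image.1 hx
    exact ha j (mem_range.1 hj)
  have h2 := card_le_card h1
  rwa [card_image_of_injective _ (fun x y h => by simpa using h), card_range] at h2

theorem minCard_pos {N k : ℕ} (hN : 1 ≤ N) (hk : 1 ≤ k) : 0 < minCard N k :=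
  lt_of_lt_of_le hk (le_minCard hN)

/-- The lower bound by the exponent holds for all `N` with constant one. -/
theorem rpow_growthExp_le {N k : ℕ} (hN : 1 ≤ N) (hk : 1 ≤ k) :
    ((N : ℝ) + 1) ^ growthExp k ≤ minCard N k := by
  have h1 := growthExp_le k hN
  rw [le_div_iff₀ (log_succ_pos hN)] at h1
  have h2 : (0 : ℝ) < minCard N k := by exact_mod_cast minCard_pos hN hk
  rw [Real.rpow_def_of_pos (by positivity), mul_comm, ← Real.le_log_iff_exp_le h2]
  exact h1

theorem minCard_monoN {N N' k : ℕ} (h : N ≤ N') : minCard N k ≤ minCard N' k := by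
  obtain ⟨A, hA, hAc⟩ := exists_minCard N' k
  rw [← hAc]
  exact minCard_le fun d h1 h2 => hA d h1 (h2.trans h)

/-- Submultiplicativity. -/
theorem submult {N N' k : ℕ} (hN : 1 ≤ N) (hN' : 1 ≤ N') (hk : 1 ≤ k) :
    minCard ((N + 1) * (N' + 1) - 1) k ≤ minCard N k * minCard N' k := by
  classical
  obtain ⟨A, hA, hAc⟩ := exists_minCard N k
  obtain ⟨B, hB, hBc⟩ := exists_minCard N' k
  have hA0 : ∀ d, d ≤ N → ∃ a, ∀ j < k, a + j * d ∈ A := by
    intro d hd
    rcases Nat.eq_zero_or_pos d with h0 | h0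
    · obtain ⟨a, ha⟩ := hA 1 le_rfl hN
      refine ⟨a, fun j _ => ?_⟩
      have := ha 0 hk
      rw [h0]
      simpa using this
    · exact hA d h0 hd
  have hB0 : ∀ d, d ≤ N' → ∃ a, ∀ j < k, a + j * d ∈ B := by
    intro d hd
    rcases Nat.eq_zero_or_pos d with h0 | h0
    · obtain ⟨a, ha⟩ := hB 1 le_rfl hN'
      refine ⟨a, fun j _ => ?_⟩
      have := ha 0 hk
      rw [h0]
      simpa using this
    · exact hB d h0 hd
  have h : HasAPs ((N + 1) * (N' + 1) - 1) k
      ((A ×ˢ B).image fun p => p.1 + (N + 1) * p.2) := by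
    intro d hd1 hd2
    obtain ⟨a, ha⟩ := hA0 (d % (N + 1)) (Nat.lt_succ_iff.1 (Nat.mod_lt _ (by omega)))
    have h3 : d / (N + 1) ≤ N' := by
      have h4 : d < (N' + 1) * (N + 1) := by
        have : 0 < (N + 1) * (N' + 1) := by positivity
        rw [mul_comm]
        omega
      have := (Nat.div_lt_iff_lt_mul (by omega : 0 < N + 1)).2 h4
      omega
    obtain ⟨b, hb⟩ := hB0 (d / (N + 1)) h3
    refine ⟨a + (N + 1) * b, fun j hj => ?_⟩
    refine mem_image.2 ⟨(a + j * (d % (N + 1)), b + j * (d / (N + 1))),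
      mem_product.2 ⟨ha j hj, hb j hj⟩, ?_⟩
    have h4 := Nat.mod_add_div d (N + 1)
    simp only
    calc a + j * (d % (N + 1)) + (N + 1) * (b + j * (d / (N + 1)))
        = a + (N + 1) * b + j * (d % (N + 1) + (N + 1) * (d / (N + 1))) := by ring
      _ = a + (N + 1) * b + j * d := by rw [h4]
  refine (minCard_le h).trans (card_image_le.trans ?_)
  rw [card_product, hAc, hBc]

theorem submult_pow {N k : ℕ} (hN : 1 ≤ N) (hk : 1 ≤ k) (n : ℕ) :
    minCard ((N + 1) ^ (n + 1) - 1) k ≤ minCard N k ^ (n + 1) := by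
  induction n with
  | zero => simp
  | succ n ih =>
    have h1 : 2 ≤ (N + 1) ^ (n + 1) := by
      calc 2 ≤ N + 1 := by omega
        _ = (N + 1) ^ 1 := (pow_one _).symm
        _ ≤ (N + 1) ^ (n + 1) := Nat.pow_le_pow_right (by omega) (by omega)
    have h2 := submult (N := (N + 1) ^ (n + 1) - 1) (N' := N) (by omega) hN hk
    rw [Nat.sub_add_cancel (by omega : 1 ≤ (N + 1) ^ (n + 1)), ← pow_succ] at h2
    calc minCard ((N + 1) ^ (n + 1 + 1) - 1) k
        ≤ minCard ((N + 1) ^ (n + 1) - 1) k * minCard N k := h2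
      _ ≤ minCard N k ^ (n + 1) * minCard N k := Nat.mul_le_mul_right _ ih
      _ = minCard N k ^ (n + 1 + 1) := (pow_succ _ _).symm

/-- The upper bound for large arguments in terms of one value. -/
theorem log_minCard_le {N₀ k : ℕ} (h₀ : 1 ≤ N₀) (hk : 1 ≤ k) {N : ℕ} (hN : 1 ≤ N) :
    Real.log (minCard N k) ≤
      (Real.log (minCard N₀ k) / Real.log ((N₀ : ℝ) + 1)) * Real.log ((N : ℝ) + 1) +
        Real.log (minCard N₀ k) := by
  obtain ⟨n, hn⟩ : ∃ n, n = Nat.log (N₀ + 1) N := ⟨_, rfl⟩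
  have h1 : N < (N₀ + 1) ^ (n + 1) := by
    rw [hn]
    exact Nat.lt_pow_succ_log_self (by omega) N
  have h2 : (N₀ + 1) ^ n ≤ N := by
    rw [hn]
    exact Nat.pow_log_le_self _ (by omega)
  have h3 : minCard N k ≤ minCard N₀ k ^ (n + 1) :=
    (minCard_monoN (by omega)).trans (submult_pow h₀ hk n)
  have h4 : Real.log (minCard N k) ≤ (n + 1) * Real.log (minCard N₀ k) := by
    have h5 : Real.log (minCard N k) ≤ Real.log (((minCard N₀ k ^ (n + 1) : ℕ) : ℝ)) :=
      Real.log_le_log (by exact_mod_cast minCard_pos hN hk) (by exact_mod_cast h3)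
    rw [Nat.cast_pow, Real.log_pow] at h5
    push_cast at h5
    exact h5
  have h6 : (n : ℝ) * Real.log ((N₀ : ℝ) + 1) ≤ Real.log ((N : ℝ) + 1) := by
    rw [← Real.log_pow]
    apply Real.log_le_log (by positivity)
    have : (((N₀ + 1) ^ n : ℕ) : ℝ) ≤ N := by exact_mod_cast h2
    push_cast at this
    linarith
  have h7 := log_succ_pos h₀
  have h8 : (n : ℝ) ≤ Real.log ((N : ℝ) + 1) / Real.log ((N₀ : ℝ) + 1) := by
    rw [le_div_iff₀ h7]
    exact h6
  have h9 := log_minCard_nonneg N₀ k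
  calc Real.log (minCard N k) ≤ (n + 1) * Real.log (minCard N₀ k) := h4
    _ = n * Real.log (minCard N₀ k) + Real.log (minCard N₀ k) := by ring
    _ ≤ (Real.log ((N : ℝ) + 1) / Real.log ((N₀ : ℝ) + 1)) * Real.log (minCard N₀ k) +
        Real.log (minCard N₀ k) := by gcongr
    _ = _ := by ring

/-- The exponent is the limit. -/
theorem tendsto_growthExp {k : ℕ} (hk : 1 ≤ k) :
    Tendsto (fun N : ℕ => Real.log (minCard N k) / Real.log ((N : ℝ) + 1)) atTop
      (𝓝 (growthExp k)) := by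
  rw [Metric.tendsto_atTop]
  intro ε hε
  obtain ⟨x, ⟨N₀, h₀, rfl⟩, hx⟩ := exists_lt_of_csInf_lt
    (s := {x | ∃ N : ℕ, 1 ≤ N ∧ x = Real.log (minCard N k) / Real.log ((N : ℝ) + 1)})
    ⟨_, 1, le_rfl, rfl⟩ (b := growthExp k + ε / 2) (by
      change growthExp k < _
      linarith)
  have hlog : Tendsto (fun N : ℕ => Real.log ((N : ℝ) + 1)) atTop atTop :=
    Real.tendsto_log_atTop.comp (tendsto_atTop_add_const_right _ _ tendsto_natCast_atTop_atTop)
  obtain ⟨N₁, hN₁⟩ := (hlog.eventually_gt_atTop (Real.log (minCard N₀ k) / (ε / 2))).exists_forall_of_atTop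
  refine ⟨max N₁ 1, fun N hN => ?_⟩
  have hN1 : 1 ≤ N := (le_max_right _ _).trans hN
  have h1 := growthExp_le k hN1
  have h2 := log_minCard_le h₀ hk hN1
  have h3 := hN₁ N ((le_max_left _ _).trans hN)
  have h4 := log_succ_pos hN1
  have h5 : Real.log (minCard N k) / Real.log ((N : ℝ) + 1) < growthExp k + ε := by
    rw [div_lt_iff₀ h4]
    have h6 : Real.log (minCard N₀ k) < ε / 2 * Real.log ((N : ℝ) + 1) := by
      rw [div_lt_iff₀ (by linarith)] at h3
      linarith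
    have h7 : (Real.log (minCard N₀ k) / Real.log ((N₀ : ℝ) + 1)) * Real.log ((N : ℝ) + 1) ≤
        (growthExp k + ε / 2) * Real.log ((N : ℝ) + 1) :=
      mul_le_mul_of_nonneg_right hx.le h4.le
    linarith
  rw [Real.dist_eq, abs_of_nonneg (by linarith)]
  linarith

theorem growthExp_le_one {k : ℕ} (hk : 1 ≤ k) : growthExp k ≤ 1 := by
  -- `m(N, k) ≤ k (N + 1)`
  have h1 : ∀ N : ℕ, 1 ≤ N → minCard N k ≤ k * (N + 1) := by
    intro N _
    have h2 : HasAPs N k (range (k * (N + 1))) := by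
      intro d _ hd2
      refine ⟨0, fun j hj => ?_⟩
      rw [mem_range, zero_add]
      calc j * d ≤ j * N := Nat.mul_le_mul_left j hd2
        _ < k * (N + 1) := by nlinarith
    have h3 := minCard_le h2
    rwa [card_range] at h3
  by_contra hlt
  push Not at hlt
  obtain ⟨δ, hδ⟩ : ∃ δ, δ = growthExp k - 1 := ⟨_, rfl⟩
  have hδ0 : 0 < δ := by linarith
  have hlog : Tendsto (fun N : ℕ => Real.log ((N : ℝ) + 1)) atTop atTop :=
    Real.tendsto_log_atTop.comp (tendsto_atTop_add_const_right _ _ tendsto_natCast_atTop_atTop)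
  obtain ⟨N, hN1, hN⟩ :=
    ((eventually_ge_atTop 1).and (hlog.eventually_gt_atTop (Real.log k / δ))).exists
  have h2 := growthExp_le k hN1
  rw [le_div_iff₀ (log_succ_pos hN1)] at h2
  have hkR : (0 : ℝ) < k := by exact_mod_cast hk
  have h3 : Real.log (minCard N k) ≤ Real.log k + Real.log ((N : ℝ) + 1) := by
    rw [← Real.log_mul hkR.ne' (by positivity)]
    apply Real.log_le_log (by exact_mod_cast minCard_pos hN1 hk)
    exact_mod_cast h1 N hN1
  rw [div_lt_iff₀ hδ0] at hN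
  have h4 : growthExp k = 1 + δ := by linarith
  rw [h4] at h2
  linarith

/-- The lengths of the intervals in the expansion with odd digits. -/
def len (b : ℕ) : ℕ → ℕ
  | 0 => 0
  | n + 1 => b * (1 + len b n)

/-- Expansions with odd digits. -/
theorem odd_digits {b k : ℕ} (hb : Odd b) {A : Finset ℕ}
    (hA : ∀ d, 1 ≤ d → d ≤ b → Nat.Coprime d 2 → ∃ a, ∀ j < k, a + j * d ∈ A) (n : ℕ) :
    ∃ S : Finset ℕ, S.card ≤ A.card ^ n ∧ ∀ E, E ≤ len b n → ∃ a : ℤ, ∀ j : ℕ, j < k →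
      ∃ x ∈ S, (x : ℤ) = a + j * (2 * E - len b n) := by
  classical
  have hdig : ∀ e : ℕ, e ≤ b → ∃ a : ℤ, ∀ j : ℕ, j < k → ∃ x ∈ A, (x : ℤ) = a + j * (2 * e - b) := by
    intro e he
    obtain ⟨c, hc⟩ := hb
    rcases le_or_gt (2 * e) b with h | h
    · obtain ⟨a, ha⟩ := hA (b - 2 * e) (by omega) (by omega)
        (by rw [Nat.coprime_two_right]; exact ⟨c - e, by omega⟩)
      refine ⟨a + (k - 1 : ℕ) * ((b : ℤ) - 2 * e), fun j hj => ?_⟩
      refine ⟨_, ha (k - 1 - j) (by omega), ?_⟩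
      have h1 : ((b - 2 * e : ℕ) : ℤ) = b - 2 * e := by
        rw [Nat.cast_sub h]
        push_cast
        ring
      have h2 : ((k - 1 - j : ℕ) : ℤ) = ((k - 1 : ℕ) : ℤ) - j := by
        rw [Nat.cast_sub (by omega)]
      rw [Nat.cast_add, Nat.cast_mul, h1, h2]
      ring
    · obtain ⟨a, ha⟩ := hA (2 * e - b) (by omega) (by omega)
        (by rw [Nat.coprime_two_right]; exact ⟨e - c - 1, by omega⟩)
      refine ⟨a, fun j hj => ⟨_, ha j hj, ?_⟩⟩
      have h1 : ((2 * e - b : ℕ) : ℤ) = 2 * e - b := by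
        rw [Nat.cast_sub h.le]
        push_cast
        ring
      rw [Nat.cast_add, Nat.cast_mul, h1]
  induction n with
  | zero =>
    refine ⟨{0}, by simp, fun E hE => ⟨0, fun j _ => ⟨0, mem_singleton_self _, ?_⟩⟩⟩
    have : E = 0 := Nat.le_zero.1 hE
    rw [this]
    simp [len]
  | succ n ih =>
    obtain ⟨S, hS, hS'⟩ := ih
    refine ⟨(A ×ˢ S).image fun p => p.1 + b * p.2, ?_, ?_⟩
    · refine card_image_le.trans ?_
      rw [card_product, pow_succ, mul_comm]
      exact Nat.mul_le_mul_right _ hS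
    · intro E hE
      rw [len] at hE
      obtain ⟨e, E', he, hE', rfl⟩ : ∃ e E', e ≤ b ∧ E' ≤ len b n ∧ E = e + b * E' := by
        obtain ⟨c, hc⟩ := hb
        rcases le_or_gt (E / b) (len b n) with h | h
        · exact ⟨E % b, E / b, (Nat.mod_lt _ (by omega)).le, h, (Nat.mod_add_div _ _).symm⟩
        · refine ⟨b, len b n, le_rfl, le_rfl, ?_⟩
          have h1 : b * (len b n + 1) ≤ b * (E / b) := Nat.mul_le_mul_left _ h
          have h2 := Nat.mul_div_le E b
          have h3 : b * (1 + len b n) = b * (len b n + 1) := by ring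
          have h4 : b * (len b n + 1) = b + b * len b n := by ring
          omega
      obtain ⟨a, ha⟩ := hdig e he
      obtain ⟨a', ha'⟩ := hS' E' hE'
      refine ⟨a + b * a', fun j hj => ?_⟩
      obtain ⟨x, hx, hx'⟩ := ha j hj
      obtain ⟨y, hy, hy'⟩ := ha' j hj
      refine ⟨x + b * y, mem_image.2 ⟨(x, y), mem_product.2 ⟨hx, hy⟩, rfl⟩, ?_⟩
      rw [len]
      push_cast
      rw [hx', hy']
      ring

theorem pow_le_len {b : ℕ} (n : ℕ) : b ^ (n + 1) ≤ len b (n + 1) := by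
  induction n with
  | zero => simp [len]
  | succ n ih =>
    rw [len, pow_succ, mul_comm]
    exact Nat.mul_le_mul_left _ (by omega)

theorem len_parity {b : ℕ} (hb : Odd b) (n : ℕ) : len b n % 2 = n % 2 := by
  induction n with
  | zero => rfl
  | succ n ih =>
    rw [len, Nat.mul_mod, Nat.add_mod, ih, Nat.odd_iff.1 hb]
    omega

/-- A set with progressions for all odd differences up to the odd number `b` has at least
`b ^ θ_k` elements. -/
theorem rpow_le_card_of_odd {b k : ℕ} (hb : Odd b) (hk : 1 ≤ k) {A : Finset ℕ}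
    (hA : ∀ d, 1 ≤ d → d ≤ b → Nat.Coprime d 2 → ∃ a, ∀ j < k, a + j * d ∈ A) :
    (b : ℝ) ^ growthExp k ≤ A.card := by
  classical
  have hb1 : 1 ≤ b := by
    obtain ⟨c, hc⟩ := hb
    omega
  have hkey : ∀ n : ℕ, minCard (b ^ (n + 1)) k ≤ A.card ^ (n + 1) + A.card ^ (n + 2) := by
    intro n
    obtain ⟨S, hS, hS'⟩ := odd_digits hb hA (n + 1)
    obtain ⟨S₂, hS₂, hS₂'⟩ := odd_digits hb hA (n + 2)
    have h : HasAPs (b ^ (n + 1)) k (S ∪ S₂) := by
      intro d hd1 hd2
      have hl1 := pow_le_len (b := b) n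
      have hl2 : b ^ (n + 1 + 1) ≤ len b (n + 2) := pow_le_len (b := b) (n + 1)
      have hmono : b ^ (n + 1) ≤ b ^ (n + 1 + 1) := Nat.pow_le_pow_right hb1 (by omega)
      have hp1 := len_parity hb (n + 1)
      have hp2 := len_parity hb (n + 2)
      have hmain : ∀ (m : ℕ) (T : Finset ℕ), d ≤ len b m → d % 2 = len b m % 2 →
          (∀ E, E ≤ len b m → ∃ a : ℤ, ∀ j : ℕ, j < k → ∃ x ∈ T, (x : ℤ) = a + j * (2 * E - len b m)) →
          ∃ a : ℕ, ∀ j < k, a + j * d ∈ T := by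
        intro m T h1 h2 h3
        obtain ⟨a, ha⟩ := h3 ((d + len b m) / 2) (by omega)
        have h4 : (2 : ℤ) * ((d + len b m) / 2 : ℕ) - len b m = d := by
          have h5 : 2 * ((d + len b m) / 2) = d + len b m := by omega
          have h6 : (2 : ℤ) * ((d + len b m) / 2 : ℕ) = d + len b m := by exact_mod_cast h5
          rw [h6]
          ring
        rw [h4] at ha
        obtain ⟨x₀, hx₀, hx₀'⟩ := ha 0 hk
        refine ⟨x₀, fun j hj => ?_⟩
        obtain ⟨x, hx, hx'⟩ := ha j hj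
        have h7 : x = x₀ + j * d := by
          have h8 : (x : ℤ) = x₀ + j * d := by
            rw [hx', hx₀']
            push_cast
            ring
          exact_mod_cast h8
        rw [← h7]
        exact hx
      rcases Nat.mod_two_eq_zero_or_one (d + (n + 1)) with h1 | h1
      · obtain ⟨a, ha⟩ := hmain (n + 1) S (by omega) (by omega) hS'
        exact ⟨a, fun j hj => mem_union_left _ (ha j hj)⟩
      · obtain ⟨a, ha⟩ := hmain (n + 2) S₂ (by omega) (by omega) hS₂'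
        exact ⟨a, fun j hj => mem_union_right _ (ha j hj)⟩
    exact (minCard_le h).trans ((card_union_le _ _).trans (Nat.add_le_add hS hS₂))
  by_contra hlt
  push Not at hlt
  have hApos : (0 : ℝ) < A.card := by
    have h1 : 0 < A.card := by
      obtain ⟨a, ha⟩ := hA 1 le_rfl hb1 (by norm_num)
      exact card_pos.2 ⟨_, ha 0 hk⟩
    exact_mod_cast h1
  obtain ⟨ρ, hρ⟩ : ∃ ρ : ℝ, ρ = (b : ℝ) ^ growthExp k / A.card := ⟨_, rfl⟩
  have hρ1 : 1 < ρ := by
    rw [hρ, lt_div_iff₀ hApos]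
    linarith
  have hbound : ∀ n : ℕ, ρ ^ (n + 1) ≤ 1 + A.card := by
    intro n
    have h1 : (((b ^ (n + 1) : ℕ) : ℝ) + 1) ^ growthExp k ≤ minCard (b ^ (n + 1)) k :=
      rpow_growthExp_le (Nat.pow_pos hb1) hk
    have h2 : ((b : ℝ) ^ growthExp k) ^ (n + 1) ≤ (((b ^ (n + 1) : ℕ) : ℝ) + 1) ^ growthExp k := by
      have h3 : ((b : ℝ) ^ growthExp k) ^ (n + 1) = ((b ^ (n + 1) : ℕ) : ℝ) ^ growthExp k := by
        push_cast
        rw [← Real.rpow_natCast, ← Real.rpow_natCast, ← Real.rpow_mul (Nat.cast_nonneg _),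
          ← Real.rpow_mul (Nat.cast_nonneg _), mul_comm]
      rw [h3]
      exact Real.rpow_le_rpow (by positivity) (by linarith) (growthExp_nonneg k)
    have h4 : (minCard (b ^ (n + 1)) k : ℝ) ≤ (A.card : ℝ) ^ (n + 1) + (A.card : ℝ) ^ (n + 2) := by
      exact_mod_cast hkey n
    rw [hρ, div_pow, div_le_iff₀ (by positivity)]
    calc ((b : ℝ) ^ growthExp k) ^ (n + 1) ≤ (A.card : ℝ) ^ (n + 1) + (A.card : ℝ) ^ (n + 2) :=
          (h2.trans h1).trans h4
      _ = (1 + A.card) * (A.card : ℝ) ^ (n + 1) := by ring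
  have h5 := tendsto_pow_atTop_atTop_of_one_lt hρ1
  obtain ⟨n, hn1, hn2⟩ := ((eventually_ge_atTop 1).and
    (h5.eventually_gt_atTop (1 + (A.card : ℝ)))).exists
  have h6 := hbound (n - 1)
  rw [Nat.sub_add_cancel hn1] at h6
  linarith

end Pool.Agent.Lib.H38K
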