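import Pool.Agent.Lib.H38K.Chain

/-!
# The theorems of Katz and Tao on sums and differences, with multiplicities
-/

namespace Pool.Agent.Lib.H38K

open Finset

/-- The vertical segments of `G`. -/
def seg (G : Finset (ℤ × ℤ)) : Finset ((ℤ × ℤ) × (ℤ × ℤ)) :=
  (G ×ˢ G).filter fun v => v.1.1 = v.2.1

theorem mem_seg {G : Finset (ℤ × ℤ)} {v : (ℤ × ℤ) × (ℤ × ℤ)} :
    v ∈ seg G ↔ v.1 ∈ G ∧ v.2 ∈ G ∧ v.1.1 = v.2.1 := by
  rw [seg, mem_filter, mem_product]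
  tauto

theorem card_sq_le (A : Finset ℤ) (G : Finset (ℤ × ℤ)) (h : ∀ p ∈ G, p.1 ∈ A) :
    (G.card : ℝ) ^ 2 ≤ A.card * (seg G).card := by
  have h1 : G.card = ∑ a ∈ A, (G.filter fun p => p.1 = a).card :=
    card_eq_sum_card_fiberwise (f := fun p : ℤ × ℤ => p.1) (t := A) (fun p hp => h p hp)
  have h2 : (seg G).card = ∑ a ∈ A, (G.filter fun p => p.1 = a).card ^ 2 := by
    rw [card_eq_sum_card_fiberwise (f := fun v : (ℤ × ℤ) × (ℤ × ℤ) => v.1.1) (t := A)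
      (fun v hv => h _ (mem_seg.1 hv).1)]
    apply sum_congr rfl
    intro a _
    rw [sq, ← card_product]
    congr 1
    ext v
    rw [mem_filter, mem_seg, mem_product, mem_filter, mem_filter]
    constructor
    · rintro ⟨⟨a1, a2, a3⟩, a4⟩
      exact ⟨⟨a1, a4⟩, a2, a3 ▸ a4⟩
    · rintro ⟨⟨a1, a2⟩, a3, a4⟩
      exact ⟨⟨a1, a3, a2.trans a4.symm⟩, a2⟩
  rw [h1, h2]
  push_cast
  exact sq_sum_le_card_mul_sum_sq

/-- The theorem of Katz and Tao for the projections `a`, `b`, `a + b` with multiplicities. -/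
theorem katz_tao_three (A : Finset ℤ) (G : Finset (ℤ × ℤ)) (r : ℕ)
    (hG : ∀ p ∈ G, p.1 ∈ A ∧ p.2 ∈ A ∧ ∃ c ∈ A, p.1 + p.2 = 2 * c)
    (hr : ∀ t, (G.filter fun p => p.1 - p.2 = t).card ≤ r) :
    (G.card : ℝ) ^ 6 ≤ r * (A.card : ℝ) ^ 11 := by
  classical
  obtain ⟨V, hV⟩ : ∃ V, V = seg G := ⟨_, rfl⟩
  obtain ⟨m, hm⟩ : ∃ m : ℕ, m = A.card := ⟨_, rfl⟩
  let f : (ℤ × ℤ) × (ℤ × ℤ) → ℤ × ℤ := fun v => (v.1.1 + v.1.2, v.2.1 + v.2.2)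
  let g : (ℤ × ℤ) × (ℤ × ℤ) → ℤ × ℤ := fun v => (v.1.2, v.2.2)
  let h : (ℤ × ℤ) × (ℤ × ℤ) → ℤ × ℤ := fun v => (v.1.1 + v.1.2, v.2.2)
  have hA2 : ∀ p ∈ G, p.1 + p.2 ∈ A.image fun c => 2 * c := by
    intro p hp
    obtain ⟨-, -, c, hc, h1⟩ := hG p hp
    exact mem_image.2 ⟨c, hc, h1.symm⟩
  have hA2c : (A.image fun c => 2 * c).card ≤ m := hm ▸ card_image_le
  have hf : ((V.image f).card : ℝ) ≤ (m : ℝ) ^ 2 := by
    have h1 : V.image f ⊆ (A.image fun c => 2 * c) ×ˢ (A.image fun c => 2 * c) := by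
      intro y hy
      obtain ⟨v, hv, rfl⟩ := mem_image.1 hy
      rw [hV, mem_seg] at hv
      exact mem_product.2 ⟨hA2 _ hv.1, hA2 _ hv.2.1⟩
    have h2 := card_le_card h1
    rw [card_product] at h2
    have h3 := h2.trans (Nat.mul_le_mul hA2c hA2c)
    rw [← sq] at h3
    exact_mod_cast h3
  have hg : ((V.image g).card : ℝ) ≤ (m : ℝ) ^ 2 := by
    have h1 : V.image g ⊆ A ×ˢ A := by
      intro y hy
      obtain ⟨v, hv, rfl⟩ := mem_image.1 hy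
      rw [hV, mem_seg] at hv
      exact mem_product.2 ⟨(hG _ hv.1).2.1, (hG _ hv.2.1).2.1⟩
    have h2 := card_le_card h1
    rw [card_product, ← hm, ← sq] at h2
    exact_mod_cast h2
  have hh : ((V.image h).card : ℝ) ≤ (m : ℝ) ^ 2 := by
    have h1 : V.image h ⊆ (A.image fun c => 2 * c) ×ˢ A := by
      intro y hy
      obtain ⟨v, hv, rfl⟩ := mem_image.1 hy
      rw [hV, mem_seg] at hv
      exact mem_product.2 ⟨hA2 _ hv.1, (hG _ hv.2.1).2.1⟩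
    have h2 := card_le_card h1
    rw [card_product, ← hm] at h2
    have h3 := h2.trans (Nat.mul_le_mul_right m hA2c)
    rw [← sq] at h3
    exact_mod_cast h3
  obtain ⟨T, hT⟩ : ∃ T : ℝ, T = ∑ v ∈ V, ∑ w ∈ V.filter (fun w => g w = g v),
    (cnt V f v : ℝ) * cnt V h w := ⟨_, rfl⟩
  have hchain := chain_three V f g h hf hg hh hT
  -- the upper bound for the number of chains
  obtain ⟨S, hS⟩ : ∃ S : Finset ((((ℤ × ℤ) × (ℤ × ℤ)) × ((ℤ × ℤ) × (ℤ × ℤ))) ×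
      (((ℤ × ℤ) × (ℤ × ℤ)) × ((ℤ × ℤ) × (ℤ × ℤ)))), S = ((V ×ˢ V) ×ˢ (V ×ˢ V)).filter
      fun q => g q.1.2 = g q.1.1 ∧ f q.2.1 = f q.1.1 ∧ h q.2.2 = h q.1.2 := ⟨_, rfl⟩
  have hST : T = S.card := by
    have h1 : S.card = ∑ p ∈ (V ×ˢ V).filter (fun p => g p.2 = g p.1), cnt V f p.1 * cnt V h p.2 := by
      rw [card_eq_sum_card_fiberwise (f := fun q => q.1)
        (t := (V ×ˢ V).filter (fun p => g p.2 = g p.1))]
      · apply sum_congr rfl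
        intro p hp
        rw [cnt, cnt, ← card_product]
        apply card_bij (fun q _ => q.2)
        · rintro ⟨p', q⟩ hq
          simp only [hS, mem_filter, mem_product] at hq hp ⊢
          obtain ⟨⟨⟨⟨a1, a2⟩, a3, a4⟩, a5, a6, a7⟩, rfl⟩ := hq
          exact ⟨⟨a3, a6⟩, a4, a7⟩
        · rintro ⟨p', q⟩ hq ⟨p'', q'⟩ hq' hqq
          simp only [mem_filter] at hq hq' hqq
          rw [hq.2, hq'.2, hqq]
        · rintro q hq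
          refine ⟨(p, q), ?_, rfl⟩
          simp only [hS, mem_filter, mem_product] at hq hp ⊢
          exact ⟨⟨⟨⟨hp.1.1, hp.1.2⟩, hq.1.1, hq.2.1⟩, hp.2, hq.1.2, hq.2.2⟩, trivial⟩
      · intro q hq
        simp only [hS, coe_filter, mem_product, Set.mem_ofPred_eq] at hq ⊢
        exact ⟨hq.1.1, hq.2.1⟩
    rw [h1, hT]
    push_cast
    rw [sum_filter, sum_product]
    apply sum_congr rfl
    intro v _
    rw [sum_filter]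
  have hSle : S.card ≤ r * (V.card * (m * m)) := by
    have hmaps : ∀ q ∈ S, (q.2.1, (q.1.2.1.1, q.2.2.1.2)) ∈ V ×ˢ (A ×ˢ A) := by
      intro q hq
      simp only [hS, mem_filter, mem_product] at hq
      obtain ⟨⟨⟨a1, a2⟩, a3, a4⟩, -⟩ := hq
      rw [hV, mem_seg] at a2 a4
      exact mem_product.2 ⟨a3, mem_product.2 ⟨(hG _ a2.1).1, (hG _ a4.1).2.1⟩⟩
    have hfib : ∀ y ∈ V ×ˢ (A ×ˢ A),
        (S.filter fun q => (q.2.1, (q.1.2.1.1, q.2.2.1.2)) = y).card ≤ r := by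
      rintro ⟨v₀, a₂, b₃⟩ _
      refine le_trans ?_ (hr ((v₀.1.2 - v₀.2.2) + a₂ - b₃))
      apply card_le_card_of_injOn (fun q => (q.2.2.2.1, q.2.2.2.2))
      · rintro ⟨⟨⟨⟨a1, b1⟩, a1', b1'⟩, ⟨⟨a2, b2⟩, a2', b2'⟩⟩, ⟨⟨⟨a0, b0⟩, a0', b0'⟩,
          ⟨⟨a3, b3⟩, a3', b3'⟩⟩⟩ hq
        simp only [hS, f, g, h, coe_filter, mem_filter, mem_product, Set.mem_ofPred_eq, hV, mem_seg,
          Prod.mk.injEq] at hq ⊢
        obtain ⟨⟨⟨⟨⟨-, -, e1⟩, -, -, e2⟩, ⟨-, -, e0⟩, -, hm3, e3⟩, ⟨g1, g2⟩, ⟨f1, f2⟩, h1, h2⟩,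
          rfl, rfl, rfl⟩ := hq
        refine ⟨hm3, ?_⟩
        simp only
        linarith
      · rintro ⟨⟨⟨⟨a1, b1⟩, a1', b1'⟩, ⟨⟨a2, b2⟩, a2', b2'⟩⟩, ⟨⟨⟨a0, b0⟩, a0', b0'⟩,
          ⟨⟨a3, b3⟩, a3', b3'⟩⟩⟩ hq ⟨⟨⟨⟨c1, d1⟩, c1', d1'⟩, ⟨⟨c2, d2⟩, c2', d2'⟩⟩,
          ⟨⟨⟨c0, d0⟩, c0', d0'⟩, ⟨⟨c3, d3⟩, c3', d3'⟩⟩⟩ hq' hqq
        simp only [hS, f, g, h, coe_filter, mem_filter, mem_product, Set.mem_ofPred_eq, hV, mem_seg,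
          Prod.mk.injEq] at hq hq' hqq ⊢
        obtain ⟨⟨⟨⟨⟨-, -, e1⟩, -, -, e2⟩, ⟨-, -, e0⟩, -, -, e3⟩, ⟨g1, g2⟩, ⟨f1, f2⟩, h1, h2⟩,
          rfl, rfl, rfl⟩ := hq
        obtain ⟨⟨⟨⟨⟨-, -, e1'⟩, -, -, e2'⟩, ⟨-, -, e0'⟩, -, -, e3'⟩, ⟨g1', g2'⟩, ⟨f1', f2'⟩,
          h1', h2'⟩, ⟨⟨k1, k2⟩, k3, k4⟩, k5, k6⟩ := hq'
        obtain ⟨j1, j2⟩ := hqq
        refine ⟨⟨⟨⟨?_, ?_⟩, ?_, ?_⟩, ⟨?_, ?_⟩, ?_, ?_⟩, ⟨⟨?_, ?_⟩, ?_, ?_⟩, ⟨?_, ?_⟩, ?_, ?_⟩ <;>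
          linarith
    have h1 := card_le_mul_card_image_of_maps_to hmaps r hfib
    rwa [card_product, card_product, ← hm] at h1
  have hSle' : T ≤ r * (V.card * (m * m)) := by
    rw [hST]
    exact_mod_cast hSle
  have hV3 : (V.card : ℝ) ^ 3 ≤ r * (m : ℝ) ^ 8 := by
    rcases Nat.eq_zero_or_pos V.card with h0 | h0
    · rw [show (V.card : ℝ) = 0 by exact_mod_cast h0, zero_pow (by norm_num)]
      positivity
    have h0' : (0 : ℝ) < V.card := by exact_mod_cast h0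
    have h1 : (V.card : ℝ) ^ 3 * V.card ≤ (r * (m : ℝ) ^ 8) * V.card := by
      calc (V.card : ℝ) ^ 3 * V.card = (V.card : ℝ) ^ 4 := by ring
        _ ≤ T * m ^ 2 * m ^ 2 * m ^ 2 := hchain
        _ ≤ (r * (V.card * (m * m))) * m ^ 2 * m ^ 2 * m ^ 2 := by gcongr
        _ = (r * (m : ℝ) ^ 8) * V.card := by ring
    exact le_of_mul_le_mul_right h1 h0'
  have hGV := card_sq_le A G fun p hp => (hG p hp).1
  rw [← hV, ← hm] at hGV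
  rw [← hm]
  calc (G.card : ℝ) ^ 6 = ((G.card : ℝ) ^ 2) ^ 3 := by ring
    _ ≤ ((m : ℝ) * V.card) ^ 3 := pow_le_pow_left₀ (by positivity) hGV 3
    _ = (m : ℝ) ^ 3 * (V.card : ℝ) ^ 3 := by ring
    _ ≤ (m : ℝ) ^ 3 * (r * (m : ℝ) ^ 8) := by gcongr
    _ = r * (m : ℝ) ^ 11 := by ring

/-- The argument of Katz and Tao for the projections `a`, `b`, `a - 3 b`, `a - 2 b` with
multiplicities. -/
theorem katz_tao_four (A : Finset ℤ) (G : Finset (ℤ × ℤ)) (r : ℕ)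
    (hG : ∀ p ∈ G, p.1 ∈ A ∧ p.2 ∈ A ∧ (∃ c ∈ A, p.1 - 3 * p.2 = -2 * c) ∧
      ∃ c ∈ A, p.1 - 2 * p.2 = -c)
    (hr : ∀ t, (G.filter fun p => p.1 - p.2 = t).card ≤ r) :
    (G.card : ℝ) ^ 4 ≤ r * (A.card : ℝ) ^ 7 := by
  classical
  obtain ⟨V, hV⟩ : ∃ V, V = seg G := ⟨_, rfl⟩
  obtain ⟨m, hm⟩ : ∃ m : ℕ, m = A.card := ⟨_, rfl⟩
  let f : (ℤ × ℤ) × (ℤ × ℤ) → ℤ × ℤ := fun v => (v.1.1 - 3 * v.1.2, v.2.1 - 3 * v.2.2)
  let g : (ℤ × ℤ) × (ℤ × ℤ) → ℤ × ℤ := fun v => (v.1.2, v.2.1 - 2 * v.2.2)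
  have hA2 : ∀ p ∈ G, p.1 - 3 * p.2 ∈ A.image fun c => -2 * c := by
    intro p hp
    obtain ⟨-, -, ⟨c, hc, h1⟩, -⟩ := hG p hp
    exact mem_image.2 ⟨c, hc, h1.symm⟩
  have hA3 : ∀ p ∈ G, p.1 - 2 * p.2 ∈ A.image fun c => -c := by
    intro p hp
    obtain ⟨-, -, -, c, hc, h1⟩ := hG p hp
    exact mem_image.2 ⟨c, hc, h1.symm⟩
  have hA2c : (A.image fun c => -2 * c).card ≤ m := hm ▸ card_image_le
  have hA3c : (A.image fun c => -c).card ≤ m := hm ▸ card_image_le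
  have hf : ((V.image f).card : ℝ) ≤ (m : ℝ) ^ 2 := by
    have h1 : V.image f ⊆ (A.image fun c => -2 * c) ×ˢ (A.image fun c => -2 * c) := by
      intro y hy
      obtain ⟨v, hv, rfl⟩ := mem_image.1 hy
      rw [hV, mem_seg] at hv
      exact mem_product.2 ⟨hA2 _ hv.1, hA2 _ hv.2.1⟩
    have h2 := card_le_card h1
    rw [card_product] at h2
    have h3 := h2.trans (Nat.mul_le_mul hA2c hA2c)
    rw [← sq] at h3
    exact_mod_cast h3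
  have hg : ((V.image g).card : ℝ) ≤ (m : ℝ) ^ 2 := by
    have h1 : V.image g ⊆ A ×ˢ (A.image fun c => -c) := by
      intro y hy
      obtain ⟨v, hv, rfl⟩ := mem_image.1 hy
      rw [hV, mem_seg] at hv
      exact mem_product.2 ⟨(hG _ hv.1).2.1, hA3 _ hv.2.1⟩
    have h2 := card_le_card h1
    rw [card_product, ← hm] at h2
    have h3 := h2.trans (Nat.mul_le_mul_left m hA3c)
    rw [← sq] at h3
    exact_mod_cast h3
  obtain ⟨T, hT⟩ : ∃ T : ℝ, T = ∑ v ∈ V, (cnt V f v : ℝ) * cnt V g v := ⟨_, rfl⟩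
  have hchain := chain_two V f g hf hg hT
  -- the upper bound for the number of chains
  obtain ⟨S, hS⟩ : ∃ S : Finset (((ℤ × ℤ) × (ℤ × ℤ)) × (((ℤ × ℤ) × (ℤ × ℤ)) × ((ℤ × ℤ) × (ℤ × ℤ)))),
      S = (V ×ˢ (V ×ˢ V)).filter fun q => f q.2.1 = f q.1 ∧ g q.2.2 = g q.1 := ⟨_, rfl⟩
  have hST : T = S.card := by
    have h1 : S.card = ∑ v ∈ V, cnt V f v * cnt V g v := by
      rw [card_eq_sum_card_fiberwise (f := fun q => q.1) (t := V)]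
      · apply sum_congr rfl
        intro v hv
        rw [cnt, cnt, ← card_product]
        apply card_bij (fun q _ => q.2)
        · rintro ⟨p', q⟩ hq
          simp only [hS, mem_filter, mem_product] at hq ⊢
          obtain ⟨⟨⟨a1, a2, a3⟩, a4, a5⟩, rfl⟩ := hq
          exact ⟨⟨a2, a4⟩, a3, a5⟩
        · rintro ⟨p', q⟩ hq ⟨p'', q'⟩ hq' hqq
          simp only [mem_filter] at hq hq' hqq
          rw [hq.2, hq'.2, hqq]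
        · rintro q hq
          refine ⟨(v, q), ?_, rfl⟩
          simp only [hS, mem_filter, mem_product] at hq ⊢
          exact ⟨⟨⟨hv, hq.1.1, hq.2.1⟩, hq.1.2, hq.2.2⟩, trivial⟩
      · intro q hq
        simp only [hS, coe_filter, mem_product, Set.mem_ofPred_eq] at hq
        exact hq.1.1
    rw [h1, hT]
    push_cast
    rfl
  have hSle : S.card ≤ r * (V.card * m) := by
    have hmaps : ∀ q ∈ S, (q.2.1, q.2.2.2.2) ∈ V ×ˢ A := by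
      intro q hq
      simp only [hS, mem_filter, mem_product] at hq
      obtain ⟨⟨a1, a2, a3⟩, -⟩ := hq
      rw [hV, mem_seg] at a3
      exact mem_product.2 ⟨a2, (hG _ a3.2.1).2.1⟩
    have hfib : ∀ y ∈ V ×ˢ A, (S.filter fun q => (q.2.1, q.2.2.2.2) = y).card ≤ r := by
      rintro ⟨v₀, b₂⟩ _
      refine le_trans ?_ (hr ((v₀.1.1 - 3 * v₀.1.2) + 2 * (v₀.1.2 - v₀.2.2) + 2 * b₂))
      apply card_le_card_of_injOn (fun q => (q.2.2.1.1, q.2.2.1.2))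
      · rintro ⟨⟨⟨a1, b1⟩, a1', b1'⟩, ⟨⟨a0, b0⟩, a0', b0'⟩, ⟨⟨a2, b2⟩, a2', b2'⟩⟩ hq
        simp only [hS, f, g, coe_filter, mem_filter, mem_product, Set.mem_ofPred_eq, hV, mem_seg,
          Prod.mk.injEq] at hq ⊢
        obtain ⟨⟨⟨⟨-, -, e1⟩, ⟨-, -, e0⟩, hm2, -, e2⟩, ⟨f1, f2⟩, g1, g2⟩, rfl, rfl⟩ := hq
        refine ⟨hm2, ?_⟩
        simp only
        linarith
      · rintro ⟨⟨⟨a1, b1⟩, a1', b1'⟩, ⟨⟨a0, b0⟩, a0', b0'⟩, ⟨⟨a2, b2⟩, a2', b2'⟩⟩ hq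
          ⟨⟨⟨c1, d1⟩, c1', d1'⟩, ⟨⟨c0, d0⟩, c0', d0'⟩, ⟨⟨c2, d2⟩, c2', d2'⟩⟩ hq' hqq
        simp only [hS, f, g, coe_filter, mem_filter, mem_product, Set.mem_ofPred_eq, hV, mem_seg,
          Prod.mk.injEq] at hq hq' hqq ⊢
        obtain ⟨⟨⟨⟨-, -, e1⟩, ⟨-, -, e0⟩, -, -, e2⟩, ⟨f1, f2⟩, g1, g2⟩, rfl, rfl⟩ := hq
        obtain ⟨⟨⟨⟨-, -, e1'⟩, ⟨-, -, e0'⟩, -, -, e2'⟩, ⟨f1', f2'⟩, g1', g2'⟩,
          ⟨⟨k1, k2⟩, k3, k4⟩, k5⟩ := hq'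
        obtain ⟨j1, j2⟩ := hqq
        refine ⟨⟨⟨?_, ?_⟩, ?_, ?_⟩, ⟨⟨?_, ?_⟩, ?_, ?_⟩, ⟨?_, ?_⟩, ?_, ?_⟩ <;>
          linarith
    have h1 := card_le_mul_card_image_of_maps_to hmaps r hfib
    rwa [card_product, ← hm] at h1
  have hSle' : T ≤ r * (V.card * m) := by
    rw [hST]
    exact_mod_cast hSle
  have hV3 : (V.card : ℝ) ^ 2 ≤ r * (m : ℝ) ^ 5 := by
    rcases Nat.eq_zero_or_pos V.card with h0 | h0
    · rw [show (V.card : ℝ) = 0 by exact_mod_cast h0, zero_pow (by norm_num)]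
      positivity
    have h0' : (0 : ℝ) < V.card := by exact_mod_cast h0
    have h1 : (V.card : ℝ) ^ 2 * V.card ≤ (r * (m : ℝ) ^ 5) * V.card := by
      calc (V.card : ℝ) ^ 2 * V.card = (V.card : ℝ) ^ 3 := by ring
        _ ≤ T * m ^ 2 * m ^ 2 := hchain
        _ ≤ (r * (V.card * m)) * m ^ 2 * m ^ 2 := by gcongr
        _ = (r * (m : ℝ) ^ 5) * V.card := by ring
    exact le_of_mul_le_mul_right h1 h0'
  have hGV := card_sq_le A G fun p hp => (hG p hp).1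
  rw [← hV, ← hm] at hGV
  rw [← hm]
  calc (G.card : ℝ) ^ 4 = ((G.card : ℝ) ^ 2) ^ 2 := by ring
    _ ≤ ((m : ℝ) * V.card) ^ 2 := pow_le_pow_left₀ (by positivity) hGV 2
    _ = (m : ℝ) ^ 2 * (V.card : ℝ) ^ 2 := by ring
    _ ≤ (m : ℝ) ^ 2 * (r * (m : ℝ) ^ 5) := by gcongr
    _ = r * (m : ℝ) ^ 7 := by ring

end Pool.Agent.Lib.H38K
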