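import Pool.Agent.Lib.H38K.KatzTao
import Pool.Agent.Lib.H21AP.Table

/-!
# Splitting a set with long progressions into residue classes
-/

namespace Pool.Agent.Lib.H38K

open Finset Pool.Agent.Lib.H21AP

/-- A set with long progressions consists of `q` pieces each of which has (after division by `q`)
shorter progressions with the same differences. -/
theorem split {N k k₀ q : ℕ} (hq : 0 < q) (hk : q * k₀ ≤ k) {A : Finset ℕ} (hA : HasAPs N k A) :
    ∃ F : ℕ → Finset ℕ, ∑ r ∈ range q, (F r).card = A.card ∧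
      ∀ r < q, ∀ d, 1 ≤ d → d ≤ N → Nat.Coprime d q → ∃ a, ∀ j < k₀, a + j * d ∈ F r := by
  classical
  refine ⟨fun r => (A.filter fun x => x % q = r).image fun x => x / q, ?_, ?_⟩
  · rw [card_eq_sum_card_fiberwise (f := fun x => x % q) (t := range q)
      (fun x _ => mem_coe.2 (mem_range.2 (Nat.mod_lt _ hq)))]
    apply sum_congr rfl
    intro r _
    apply card_image_of_injOn
    intro x hx y hy hxy
    simp only [coe_filter, Set.mem_ofPred_eq] at hx hy hxy
    rw [← Nat.div_add_mod x q, ← Nat.div_add_mod y q, hxy, hx.2, hy.2]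
  · intro r hr d hd1 hd2 hdq
    obtain ⟨s, hs⟩ := hA d hd1 hd2
    have : NeZero q := ⟨hq.ne'⟩
    obtain ⟨j₀, hj₀, hj₀r⟩ : ∃ j₀ < q, (s + j₀ * d) % q = r := by
      refine ⟨(((r : ZMod q) - s) * (d : ZMod q)⁻¹).val, ZMod.val_lt _, ?_⟩
      have h1 : ((s + (((r : ZMod q) - s) * (d : ZMod q)⁻¹).val * d : ℕ) : ZMod q) = (r : ℕ) := by
        push_cast
        rw [ZMod.natCast_zmod_val, mul_assoc, mul_comm (d : ZMod q)⁻¹,
          ZMod.coe_mul_inv_eq_one d hdq]
        ring
      rw [ZMod.natCast_eq_natCast_iff] at h1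
      rw [h1, Nat.mod_eq_of_lt hr]
    refine ⟨(s + j₀ * d) / q, fun i hi => ?_⟩
    refine mem_image.2 ⟨s + (j₀ + i * q) * d, mem_filter.2 ⟨hs _ ?_, ?_⟩, ?_⟩
    · calc j₀ + i * q < q + i * q := by omega
        _ = (i + 1) * q := by ring
        _ ≤ k₀ * q := Nat.mul_le_mul_right q hi
        _ = q * k₀ := mul_comm _ _
        _ ≤ k := hk
    · have h1 : s + (j₀ + i * q) * d = s + j₀ * d + q * (i * d) := by ring
      rw [h1, Nat.add_mul_mod_self_left, hj₀r]
    · have h1 : s + (j₀ + i * q) * d = s + j₀ * d + q * (i * d) := by ring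
      rw [h1, Nat.add_mul_div_left _ _ hq]

theorem minCard_le {N k : ℕ} {A : Finset ℕ} (hA : HasAPs N k A) : minCard N k ≤ A.card :=
  Nat.sInf_le ⟨A, hA, rfl⟩

/-- A set with progressions for all differences prime to `p` gives a set with progressions for
all differences. -/
theorem recover {N k p : ℕ} (hp : p.Prime) {B : Finset ℕ}
    (hB : ∀ d, 1 ≤ d → d ≤ N → Nat.Coprime d p → ∃ a, ∀ j < k, a + j * d ∈ B) :
    minCard N k ≤ (1 + Nat.log p N) * B.card := by
  classical
  have h : HasAPs N k ((range (1 + Nat.log p N)).biUnion fun i => B.image fun x => p ^ i * x) := by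
    intro d hd1 hd2
    obtain ⟨i, o, ho, rfl⟩ := Nat.exists_eq_pow_mul_and_not_dvd (n := d) (by omega) p hp.ne_one
    have ho1 : 1 ≤ o := by
      rcases Nat.eq_zero_or_pos o with h0 | h0
      · rw [h0] at ho
        exact absurd (dvd_zero p) ho
      · exact h0
    have hpi : 0 < p ^ i := Nat.pow_pos hp.pos
    have ho2 : o ≤ N := (Nat.le_mul_of_pos_left o hpi).trans hd2
    obtain ⟨a, ha⟩ := hB o ho1 ho2 ((Nat.Prime.coprime_iff_not_dvd hp).2 ho).symm
    refine ⟨p ^ i * a, fun j hj => ?_⟩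
    rw [mem_biUnion]
    refine ⟨i, mem_range.2 ?_, mem_image.2 ⟨a + j * o, ha j hj, by ring⟩⟩
    have h1 : p ^ i ≤ N := (Nat.le_mul_of_pos_right _ ho1).trans hd2
    have h2 := Nat.le_log_of_pow_le hp.one_lt h1
    omega
  refine (minCard_le h).trans (card_biUnion_le.trans ?_)
  calc ∑ i ∈ range (1 + Nat.log p N), (B.image fun x => p ^ i * x).card
      ≤ ∑ i ∈ range (1 + Nat.log p N), B.card := sum_le_sum fun i _ => card_image_le
    _ = (1 + Nat.log p N) * B.card := by rw [sum_const, card_range, smul_eq_mul]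

/-- Linear growth in the length. -/
theorem linear_growth {p : ℕ} (hp : p.Prime) (j N k : ℕ) :
    p ^ j * minCard N k ≤ (1 + Nat.log p N) * minCard N (p ^ j * k) := by
  obtain ⟨A, hA, hAc⟩ := exists_minCard N (p ^ j * k)
  have hq : 0 < p ^ j := Nat.pow_pos hp.pos
  obtain ⟨F, hF, hF'⟩ := split hq le_rfl hA
  have h1 : ∀ r ∈ range (p ^ j), minCard N k ≤ (1 + Nat.log p N) * (F r).card := by
    intro r hr
    apply recover hp
    intro d hd1 hd2 hdp
    exact hF' r (mem_range.1 hr) d hd1 hd2 (Nat.Coprime.pow_right j hdp)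
  calc p ^ j * minCard N k = ∑ r ∈ range (p ^ j), minCard N k := by
        rw [sum_const, card_range, smul_eq_mul]
    _ ≤ ∑ r ∈ range (p ^ j), (1 + Nat.log p N) * (F r).card := sum_le_sum h1
    _ = (1 + Nat.log p N) * minCard N (p ^ j * k) := by rw [← mul_sum, hF, hAc]

theorem minCard_mono {N k k' : ℕ} (h : k ≤ k') : minCard N k ≤ minCard N k' := by
  obtain ⟨A, hA, hAc⟩ := exists_minCard N k'
  rw [← hAc]
  apply minCard_le
  intro d h1 h2
  obtain ⟨a, ha⟩ := hA d h1 h2
  exact ⟨a, fun j hj => ha j (by omega)⟩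

theorem exists_pow {k k₀ : ℕ} (h₀ : 1 ≤ k₀) (h : k₀ ≤ k) :
    ∃ j, 2 ^ j * k₀ ≤ k ∧ k < 2 * k₀ * 2 ^ j := by
  refine ⟨Nat.log 2 (k / k₀), ?_, ?_⟩
  · have h1 : k / k₀ ≠ 0 := (Nat.div_pos h h₀).ne'
    have h2 := Nat.pow_log_le_self 2 h1
    exact (Nat.mul_le_mul_right k₀ h2).trans (Nat.div_mul_le_self k k₀)
  · have h1 : k / k₀ < 2 ^ (Nat.log 2 (k / k₀) + 1) := Nat.lt_pow_succ_log_self (by norm_num) _
    have h2 : k / k₀ + 1 ≤ 2 ^ (Nat.log 2 (k / k₀) + 1) := h1
    have h3 : k < k₀ * (k / k₀ + 1) := by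
      have := Nat.lt_mul_div_succ k h₀
      exact this
    calc k < k₀ * (k / k₀ + 1) := h3
      _ ≤ k₀ * 2 ^ (Nat.log 2 (k / k₀) + 1) := Nat.mul_le_mul_left _ h2
      _ = 2 * k₀ * 2 ^ Nat.log 2 (k / k₀) := by ring

theorem linear_growth' {N k k₀ : ℕ} (h₀ : 1 ≤ k₀) (h : k₀ ≤ k) :
    k * minCard N k₀ ≤ 2 * k₀ * (1 + Nat.log 2 N) * minCard N k := by
  obtain ⟨j, hj1, hj2⟩ := exists_pow h₀ h
  have h1 := linear_growth Nat.prime_two j N k₀
  have h2 := minCard_mono (N := N) hj1
  calc k * minCard N k₀ ≤ (2 * k₀ * 2 ^ j) * minCard N k₀ := Nat.mul_le_mul_right _ hj2.le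
    _ = 2 * k₀ * (2 ^ j * minCard N k₀) := by ring
    _ ≤ 2 * k₀ * ((1 + Nat.log 2 N) * minCard N (2 ^ j * k₀)) := Nat.mul_le_mul_left _ h1
    _ ≤ 2 * k₀ * ((1 + Nat.log 2 N) * minCard N k) :=
        Nat.mul_le_mul_left _ (Nat.mul_le_mul_left _ h2)
    _ = 2 * k₀ * (1 + Nat.log 2 N) * minCard N k := by ring

/-- The differences prescribed by `D`, progressions of length three. -/
theorem three_of_distinct (D B : Finset ℕ) (h : ∀ d ∈ D, ∃ a, ∀ j < 3, a + j * d ∈ B) :
    (D.card : ℝ) ^ 6 ≤ (B.card : ℝ) ^ 11 := by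
  classical
  have hex : ∀ d, ∃ s, d ∈ D → ∀ j < 3, s + j * d ∈ B := by
    intro d
    by_cases hd : d ∈ D
    · obtain ⟨s, hs⟩ := h d hd
      exact ⟨s, fun _ => hs⟩
    · exact ⟨0, fun h => absurd h hd⟩
  choose s hs using hex
  obtain ⟨A, hA⟩ : ∃ A : Finset ℤ, A = B.image fun n : ℕ => (n : ℤ) := ⟨_, rfl⟩
  have hAc : A.card = B.card := by
    rw [hA, card_image_of_injective _ Nat.cast_injective]
  let φ : ℕ → ℤ × ℤ := fun d => ((s d : ℤ) + 2 * d, (s d : ℤ))
  have hφ : Set.InjOn φ D := by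
    intro d _ d' _ hdd
    simp only [φ, Prod.mk.injEq] at hdd
    have h1 : (d : ℤ) = d' := by linarith [hdd.1, hdd.2]
    exact_mod_cast h1
  have hmem : ∀ d ∈ D, ∀ j : ℕ, j < 3 → ((s d : ℤ) + j * d) ∈ A := by
    intro d hd j hj
    rw [hA, mem_image]
    exact ⟨_, hs d hd j hj, by push_cast; ring⟩
  have hmain := katz_tao_three A (D.image φ) 1 (by
      intro p hp
      obtain ⟨d, hd, rfl⟩ := mem_image.1 hp
      have h0 := hmem d hd 0 (by norm_num)
      have h1 := hmem d hd 1 (by norm_num)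
      have h2 := hmem d hd 2 (by norm_num)
      simp only [Nat.cast_zero, zero_mul, add_zero, Nat.cast_one, one_mul, Nat.cast_ofNat]
        at h0 h1 h2
      exact ⟨h2, h0, _, h1, by simp only [φ]; ring⟩) (by
      intro t
      rw [card_le_one]
      intro p hp p' hp'
      rw [mem_filter] at hp hp'
      obtain ⟨⟨hp, hpt⟩, hp', hpt'⟩ := And.intro hp hp'
      obtain ⟨d, hd, rfl⟩ := mem_image.1 hp
      obtain ⟨d', hd', rfl⟩ := mem_image.1 hp'
      simp only [φ] at hpt hpt'
      have h1 : (d : ℤ) = d' := by linarith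
      have h2 : d = d' := by exact_mod_cast h1
      rw [h2])
  rw [card_image_of_injOn hφ, hAc] at hmain
  simpa using hmain

/-- The differences prescribed by `D`, progressions of length five. -/
theorem five_of_distinct (D B : Finset ℕ) (h : ∀ d ∈ D, ∃ a, ∀ j < 5, a + j * d ∈ B) :
    (D.card : ℝ) ^ 4 ≤ (B.card : ℝ) ^ 7 := by
  classical
  have hex : ∀ d, ∃ s, d ∈ D → ∀ j < 5, s + j * d ∈ B := by
    intro d
    by_cases hd : d ∈ D
    · obtain ⟨s, hs⟩ := h d hd
      exact ⟨s, fun _ => hs⟩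
    · exact ⟨0, fun h => absurd h hd⟩
  choose s hs using hex
  obtain ⟨A, hA⟩ : ∃ A : Finset ℤ, A = B.image fun n : ℕ => (n : ℤ) := ⟨_, rfl⟩
  have hAc : A.card = B.card := by
    rw [hA, card_image_of_injective _ Nat.cast_injective]
  let φ : ℕ → ℤ × ℤ := fun d => ((s d : ℤ) + 4 * d, (s d : ℤ) + 2 * d)
  have hφ : Set.InjOn φ D := by
    intro d _ d' _ hdd
    simp only [φ, Prod.mk.injEq] at hdd
    have h1 : (d : ℤ) = d' := by linarith [hdd.1, hdd.2]
    exact_mod_cast h1
  have hmem : ∀ d ∈ D, ∀ j : ℕ, j < 5 → ((s d : ℤ) + j * d) ∈ A := by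
    intro d hd j hj
    rw [hA, mem_image]
    exact ⟨_, hs d hd j hj, by push_cast; ring⟩
  have hmain := katz_tao_four A (D.image φ) 1 (by
      intro p hp
      obtain ⟨d, hd, rfl⟩ := mem_image.1 hp
      have h0 := hmem d hd 0 (by norm_num)
      have h1 := hmem d hd 1 (by norm_num)
      have h2 := hmem d hd 2 (by norm_num)
      have h4 := hmem d hd 4 (by norm_num)
      simp only [Nat.cast_zero, zero_mul, add_zero, Nat.cast_one, one_mul, Nat.cast_ofNat]
        at h0 h1 h2 h4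
      exact ⟨h4, h2, ⟨_, h1, by simp only [φ]; ring⟩, ⟨_, h0, by simp only [φ]; ring⟩⟩) (by
      intro t
      rw [card_le_one]
      intro p hp p' hp'
      rw [mem_filter] at hp hp'
      obtain ⟨⟨hp, hpt⟩, hp', hpt'⟩ := And.intro hp hp'
      obtain ⟨d, hd, rfl⟩ := mem_image.1 hp
      obtain ⟨d', hd', rfl⟩ := mem_image.1 hp'
      simp only [φ] at hpt hpt'
      have h1 : (d : ℤ) = d' := by linarith
      have h2 : d = d' := by exact_mod_cast h1
      rw [h2])
  rw [card_image_of_injOn hφ, hAc] at hmain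
  simpa using hmain

/-- There are at least `N / 2` odd numbers up to `N`. -/
theorem card_odd (N : ℕ) :
    (N : ℝ) / 2 ≤ ((Icc 1 N).filter fun d => Nat.Coprime d 2).card := by
  have h : N ≤ 2 * ((Icc 1 N).filter fun d => Nat.Coprime d 2).card := by
    induction N with
    | zero => simp
    | succ n ih =>
      rcases Nat.even_or_odd n with he | ho
      · have h1 : Nat.Coprime (n + 1) 2 := by
          rw [Nat.coprime_two_right]
          exact he.add_one
        rw [← insert_Icc_right_eq_Icc_add_one (by omega : 1 ≤ n + 1), filter_insert, if_pos h1,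
          card_insert_of_notMem (by simp)]
        omega
      · obtain ⟨m, rfl⟩ := ho
        have h2 : Nat.Coprime (2 * m + 1) 2 := by
          rw [Nat.coprime_two_right]
          exact ⟨m, rfl⟩
        have h3 : ((Icc 1 (2 * m + 1)).filter fun d => Nat.Coprime d 2) ⊆
            ((Icc 1 (2 * m + 1 + 1)).filter fun d => Nat.Coprime d 2) :=
          filter_subset_filter _ (Icc_subset_Icc le_rfl (by omega))
        have h4 := card_le_card h3
        have h5 : 2 * m + 1 + 1 ≤ 2 * ((Icc 1 (2 * m + 1)).filter fun d => Nat.Coprime d 2).card := by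
          omega
        omega
  have h2 : (N : ℝ) ≤ 2 * ((Icc 1 N).filter fun d => Nat.Coprime d 2).card := by exact_mod_cast h
  linarith

end Pool.Agent.Lib.H38K
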